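import Pool.Agent.T2H68.QH.Main

/-!
# A finite group whose quasi-holomorph set has no conj-closed set of representatives

The group `G` of order `32` with generators `u, a, z` and relations `u ^ 4 = a ^ 2 = z ^ 4 = 1`,
`u` central, `z a = a z u ^ 2`, is such that `Q(G)` is a proper subset of `S(G) ∩ R(G)` and no set
of representatives of `Q(G)` is conj-closed.
-/

set_option autoImplicit false

namespace Pool.Agent.Results.MP_036866_al.NotConjClosed

open Equiv

/-- `λ(G)`, the image of the left regular representation `g ↦ (x ↦ g * x)` in `Perm(G)`. -/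
def lam (G : Type) [Group G] : Subgroup (Perm G) := (MulAction.toPermHom G G).range

/-- A subgroup of `Perm(G)` is regular: for all points `x, y` exactly one element maps `x` to
`y`. -/
def IsRegular {G : Type} (N : Subgroup (Perm G)) : Prop :=
  ∀ x y : G, ∃! σ : Perm G, σ ∈ N ∧ σ x = y

/-- `Norm_B(N)` for `B = Perm(G)`. -/
def Norm {G : Type} (N : Subgroup (Perm G)) : Subgroup (Perm G) :=
  Subgroup.normalizer (N : Set (Perm G))

/-- `S(G)`: the regular subgroups isomorphic to `G` which are contained in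
`Hol(G) = Norm_B(λ(G))`. -/
def SS (G : Type) [Group G] : Set (Subgroup (Perm G)) :=
  {N | IsRegular N ∧ Nonempty (N ≃* G) ∧ N ≤ Norm (lam G)}

/-- `R(G)`: the regular subgroups isomorphic to `G` which are normalized by `λ(G)`. -/
def RR (G : Type) [Group G] : Set (Subgroup (Perm G)) :=
  {N | IsRegular N ∧ Nonempty (N ≃* G) ∧ lam G ≤ Norm N}

/-- `Q(G)`: the members of `S(G) ∩ R(G)` which are normalized by all members of
`S(G) ∩ R(G)`. -/
def QQ (G : Type) [Group G] : Set (Subgroup (Perm G)) :=
  {M | M ∈ SS G ∩ RR G ∧ ∀ N ∈ SS G ∩ RR G, N ≤ Norm M}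

/-- The conjugate `β H β⁻¹`. -/
def cj {B : Type} [Group B] (β : B) (H : Subgroup B) : Subgroup B :=
  H.map (MulAut.conj β).toMonoidHom

/-- `A` is a set of representatives `π(Q(G))`: `β ↦ β λ(G) β⁻¹` is a bijection of `A` with
`Q(G)`. -/
def IsRepSet (G : Type) [Group G] (A : Set (Perm G)) : Prop :=
  Set.BijOn (fun β => cj β (lam G)) A (QQ G)

/-- `A` is conj-closed: for all `α, β` in `A` there is `γ` in `A` with
`(α β) λ(G) (α β)⁻¹ = γ λ(G) γ⁻¹`. -/
def ConjClosed (G : Type) [Group G] (A : Set (Perm G)) : Prop :=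
  ∀ α ∈ A, ∀ β ∈ A, ∃ γ ∈ A, cj (α * β) (lam G) = cj γ (lam G)

end Pool.Agent.Results.MP_036866_al.NotConjClosed

open Pool.Agent.Results.MP_036866_al.NotConjClosed in
/-- There is a finite group `G` (of order `32`) such that `Q(G)` is a proper subset of
`S(G) ∩ R(G)` and no set of representatives of `Q(G)` is conj-closed. -/
theorem Pool.Agent.Results.MP_036866_al.NotConjClosed.result :
    ∃ (G : Type) (_ : Group G) (_ : Finite G), Nat.card G = 32 ∧
      QQ G ⊂ SS G ∩ RR G ∧
      ∀ A : Set (Equiv.Perm G), IsRepSet G A → ¬ ConjClosed G A :=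
  ⟨Pool.Agent.T2H68.QH.Gp, inferInstance, inferInstance,
    by rw [Nat.card_eq_fintype_card]; decide +kernel, Pool.Agent.T2H68.QH.main⟩
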